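import Pool.Agent.LeoD.TowStmts
import Pool.Agent.Helper5_LeoG.Api

/-!
# Squad LEOD, module APIT: clearing denominators by an integer close to 1, and the ideal
-/

set_option autoImplicit false

open NumberField IsDedekindDomain WithZero Module
open Pool.Agent.Helper85_Leo Pool.Agent.Leo3 Pool.Agent.LeoK Pool.Agent.LeoG

namespace Pool.Agent.LeoD.H65

/-- APIT. -/
theorem apit : ApitStmt := by
  classical
  intro K _ _ z N hz hval h3v
  obtain ⟨n0, hn0, a, ha⟩ := Pool.Agent.LeoG.H5.denom z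
  obtain ⟨e, n1, hn1, hn⟩ := Nat.exists_eq_pow_mul_and_not_dvd hn0 3 (by norm_num)
  have hn10 : n1 ≠ 0 := by
    rintro rfl
    exact hn1 (dvd_zero 3)
  obtain ⟨f, hf⟩ : ∃ f : ℕ, Nat.totient (3 ^ N) = f + 1 := by
    have h1 : 0 < Nat.totient (3 ^ N) := Nat.totient_pos.2 (by positivity)
    exact ⟨Nat.totient (3 ^ N) - 1, by omega⟩
  obtain ⟨n, hndef⟩ : ∃ n : ℕ, n = n1 ^ (f + 1) := ⟨_, rfl⟩
  have hnne : n ≠ 0 := by
    rw [hndef]
    exact pow_ne_zero _ hn10
  have hnat : ∀ (P : HeightOneSpectrum (𝓞 K)) (j : ℕ), P.valuation K (j : K) ≤ 1 := by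
    intro P j
    have : P.valuation K (algebraMap (𝓞 K) K (j : 𝓞 K)) ≤ 1 := P.valuation_le_one (K := K) _
    rwa [map_natCast] at this
  have h3K : ∀ P : HeightOneSpectrum (𝓞 K), (3 : 𝓞 K) ∉ P.asIdeal → P.valuation K (3 : K) = 1 := by
    intro P hP
    have : P.valuation K (algebraMap (𝓞 K) K (3 : 𝓞 K)) = 1 :=
      (P.valuation_eq_one_iff_notMem (K := K) (r := (3 : 𝓞 K))).2 hP
    rwa [map_ofNat] at this
  have hzn : ∀ P : HeightOneSpectrum (𝓞 K), P.valuation K (z * (n1 : K)) ≤ 1 := by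
    intro P
    by_cases hP : (3 : 𝓞 K) ∈ P.asIdeal
    · rw [map_mul, h3v P hP, one_mul]
      exact hnat P n1
    · have h1 : P.valuation K (z * (n0 : K)) ≤ 1 := by
        rw [← ha]
        exact P.valuation_le_one a
      have h2 : z * (n0 : K) = (3 : K) ^ e * (z * n1) := by
        rw [hn]
        push_cast
        ring
      rwa [h2, map_mul, map_pow, h3K P hP, one_pow, one_mul] at h1
  have hzn3 : ∀ P : HeightOneSpectrum (𝓞 K), P.valuation K (z * (n : K) ^ 3) ≤ 1 := by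
    intro P
    have h1 : z * (n : K) ^ 3 = (z * n1) * ((n1 ^ (3 * f + 2) : ℕ) : K) := by
      rw [hndef]
      push_cast
      ring
    rw [h1, map_mul]
    exact mul_le_one' (hzn P) (hnat P _)
  obtain ⟨y, hy⟩ := HeightOneSpectrum.mem_integers_of_valuation_le_one K _ hzn3
  have hy' : (y : K) = z * (n : K) ^ 3 := hy
  have hnK : (n : K) ≠ 0 := Nat.cast_ne_zero.2 hnne
  have hyne : y ≠ 0 := by
    rintro rfl
    rw [map_zero] at hy
    exact mul_ne_zero hz (pow_ne_zero 3 hnK) hy.symm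
  -- n is 1 modulo 3 ^ N
  have hmod : (3 : ℤ) ^ N ∣ (n : ℤ) - 1 := by
    have h1 : Nat.Coprime n1 (3 ^ N) := by
      have : Nat.Coprime n1 3 := ((Nat.Prime.coprime_iff_not_dvd Nat.prime_three).2 hn1).symm
      exact Nat.Coprime.pow_right N this
    have h2 := Nat.ModEq.pow_totient h1
    rw [hf, ← hndef] at h2
    have h5 := (Nat.modEq_iff_dvd.1 h2.symm)
    push_cast at h5
    exact h5
  -- the ideal
  have hcube : ∀ q : HeightOneSpectrum (𝓞 K), ∃ x : ℤᵐ⁰, q.valuation K (y : K) = x ^ 3 := by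
    intro P
    by_cases hP : (3 : 𝓞 K) ∈ P.asIdeal
    · refine ⟨P.valuation K (n : K), ?_⟩
      rw [hy', map_mul, h3v P hP, one_mul, map_pow]
    · obtain ⟨x, hx⟩ := hval P hP
      refine ⟨x * P.valuation K (n : K), ?_⟩
      rw [hy', map_mul, hx, map_pow, mul_pow]
  obtain ⟨I, hI⟩ := Pool.Agent.LeoG.H5.ideal_cube y hyne hcube
  exact ⟨n, y, I, hnne, hmod, hy', hyne, hI⟩

end Pool.Agent.LeoD.H65
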