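import Mathlib
import Pool.Agent.LeoD.LocStmts
import Pool.Agent.Helper87_LeoG.Idn
import Pool.Agent.Helper90_LeoD.Orb
import Pool.Agent.Helper65_LeoK.Pik

/-!
# Squad LEOD: module DBC, the number of forms modulo `p²` with a double root, maximal
-/

set_option autoImplicit false

open NumberField IsDedekindDomain Module
open Pool.Agent.LeoK Pool.Agent.LeoG Pool.Agent.LeoC

open scoped Classical

namespace Pool.Agent.LeoD.H65

section count

variable {A B : Type} [CommRing A] [CommRing B] [Finite A] [Finite B]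

omit [Finite A] in
theorem ker_card (f : A →+* B) (hf : Function.Surjective f) (q : ℕ) (hA : Nat.card A = q ^ 2)
    (hB : Nat.card B = q) : {a : A | f a = 0}.ncard = q := by
  have hq : 0 < q := by
    rw [← hB]
    exact Nat.card_pos
  let F : A →+ B := f.toAddMonoidHom
  have hF : Function.Surjective F := hf
  have h1 : Nat.card A = Nat.card (A ⧸ F.ker) * Nat.card F.ker :=
    AddSubgroup.card_eq_card_quotient_mul_card_addSubgroup _
  have h2 : Nat.card (A ⧸ F.ker) = Nat.card B :=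
    Nat.card_congr (QuotientAddGroup.quotientKerEquivOfSurjective F hF).toEquiv
  rw [h2, hA, hB, pow_two] at h1
  have h3 : Nat.card F.ker = q := (Nat.eq_of_mul_eq_mul_left hq h1).symm
  rw [← h3]
  rfl

/-- the local set of `T0` -/
def Cs (f : A →+* B) : Set (Q4 A) := {v | f (v 1) ≠ 0 ∧ f (v 2) = 0 ∧ f (v 3) = 0 ∧ v 3 ≠ 0}

theorem card_Cs (f : A →+* B) (hf : Function.Surjective f) (q : ℕ) (hA : Nat.card A = q ^ 2)
    (hB : Nat.card B = q) : (Cs f).ncard ≤ q ^ 2 * ((q ^ 2 - q) * (q * (q - 1))) := by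
  have hk := ker_card f hf q hA hB
  have h1 : {a : A | f a ≠ 0}.ncard = q ^ 2 - q := by
    have := Set.ncard_compl {a : A | f a = 0}
    rw [hk, hA] at this
    exact this
  have h2 : {a : A | f a = 0 ∧ a ≠ 0}.ncard = q - 1 := by
    have := Set.ncard_sdiff_singleton_of_mem (s := {a : A | f a = 0}) (a := 0) (map_zero f)
    rw [hk] at this
    exact this
  have h3 : (Set.univ : Set A).ncard = q ^ 2 := by
    rw [Set.ncard_univ, hA]
  have h4 : (Cs f).ncard ≤ (Set.univ : Set A).ncard * ({a : A | f a ≠ 0}.ncard *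
      ({a : A | f a = 0}.ncard * {a : A | f a = 0 ∧ a ≠ 0}.ncard)) := by
    rw [← Set.ncard_prod, ← Set.ncard_prod, ← Set.ncard_prod]
    refine Set.ncard_le_ncard_of_injOn (fun v : Q4 A => (v 0, v 1, v 2, v 3)) ?_ ?_
      (Set.toFinite _)
    · rintro v ⟨h5, h6, h7, h8⟩
      exact ⟨Set.mem_univ _, h5, h6, h7, h8⟩
    · intro v _ v' _ h
      simp only [Prod.mk.injEq] at h
      obtain ⟨h5, h6, h7, h8⟩ := h
      funext i
      fin_cases i
      · exact h5
      · exact h6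
      · exact h7
      · exact h8
  rw [h1, h2, h3, hk] at h4
  exact h4

/-- the forms which are moved into `Cs` by a matrix -/
def Ds (f : A →+* B) (x y z w : A) : Set (Q4 A) := {v | gact v x y z w ∈ Cs f}

omit [Finite A] [Finite B] in
theorem gact_one (v : Q4 A) : gact v 1 0 0 1 = v := by
  funext i
  fin_cases i
  · change gact v 1 0 0 1 0 = v 0
    rw [LeoG.H87.gact_0]
    simp only [gval]
    ring
  · change gact v 1 0 0 1 1 = v 1
    rw [LeoG.H87.gact_1]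
    ring
  · change gact v 1 0 0 1 2 = v 2
    rw [LeoG.H87.gact_2]
    ring
  · change gact v 1 0 0 1 3 = v 3
    rw [LeoG.H87.gact_3]
    simp only [gval]
    ring

omit [Finite B] in
theorem card_Ds (f : A →+* B) (x y z w x' y' z' w' : A)
    (h1 : x * x' + y * z' = 1) (h2 : x * y' + y * w' = 0) (h3 : z * x' + w * z' = 0)
    (h4 : z * y' + w * w' = 1) : (Ds f x y z w).ncard ≤ (Cs f).ncard := by
  refine Set.ncard_le_ncard_of_injOn (fun v : Q4 A => gact v x y z w) (fun v hv => hv) ?_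
    (Set.toFinite _)
  intro v _ v' _ h
  have h5 : ∀ u : Q4 A, gact (gact u x y z w) x' y' z' w' = u := by
    intro u
    rw [LeoG.H87.gact_gact, h1, h2, h3, h4, gact_one]
  have h6 : gact v x y z w = gact v' x y z w := h
  rw [← h5 v, h6, h5 v']

end count

section loc

variable {k : Type} [Field k] [NumberField k]

theorem T0_act (p : HeightOneSpectrum (𝓞 k)) {v : Q4 (𝓞 k)} (hv : v ∈ T0 p) {x y z w : 𝓞 k}
    (hy : y ∈ p.asIdeal) (hx : x ∉ p.asIdeal) (hw : w ∉ p.asIdeal) : gact v x y z w ∈ T0 p := by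
  obtain ⟨h1, h2, h3, h4⟩ := hv
  have hp : p.asIdeal.IsPrime := p.isPrime
  have hm : ∀ a b : 𝓞 k, b ∈ p.asIdeal → a * b ∈ p.asIdeal := fun a b hb =>
    p.asIdeal.mul_mem_left a hb
  have hyy : y * y ∈ p.asIdeal ^ 2 := by
    rw [pow_two]
    exact Ideal.mul_mem_mul hy hy
  have h2y : v 2 * y ∈ p.asIdeal ^ 2 := by
    rw [pow_two]
    exact Ideal.mul_mem_mul h2 hy
  refine ⟨?_, ?_, ?_, ?_⟩
  · intro h
    rw [LeoG.H87.gact_1] at h
    have h5 : v 1 * (x * x * w) ∈ p.asIdeal := by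
      have h6 : v 1 * (x * x * w) = (3 * v 0 * x ^ 2 * y + v 1 * (x ^ 2 * w + 2 * x * y * z) +
          v 2 * (2 * x * z * w + y * z ^ 2) + 3 * v 3 * z ^ 2 * w) -
          ((3 * v 0 * x ^ 2 + 2 * v 1 * x * z) * y + (2 * x * z * w + y * z ^ 2) * v 2 +
            (3 * z ^ 2 * w) * v 3) := by ring
      rw [h6]
      exact p.asIdeal.sub_mem h (p.asIdeal.add_mem (p.asIdeal.add_mem (hm _ _ hy) (hm _ _ h2))
        (hm _ _ h3))
    rcases hp.mem_or_mem h5 with h7 | h7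
    · exact h1 h7
    · rcases hp.mem_or_mem h7 with h8 | h8
      · rcases hp.mem_or_mem h8 with h9 | h9
        · exact hx h9
        · exact hx h9
      · exact hw h8
  · rw [LeoG.H87.gact_2]
    have h6 : 3 * v 0 * x * y ^ 2 + v 1 * (2 * x * y * w + y ^ 2 * z) +
        v 2 * (x * w ^ 2 + 2 * y * z * w) + 3 * v 3 * z * w ^ 2 =
        (3 * v 0 * x * y + v 1 * (2 * x * w + y * z)) * y + (x * w ^ 2 + 2 * y * z * w) * v 2 +
          (3 * z * w ^ 2) * v 3 := by ring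
    rw [h6]
    exact p.asIdeal.add_mem (p.asIdeal.add_mem (hm _ _ hy) (hm _ _ h2)) (hm _ _ h3)
  · rw [LeoG.H87.gact_3]
    have h6 : gval v y w = (v 0 * y ^ 2 + v 1 * y * w) * y + (y * w ^ 2) * v 2 +
        w ^ 3 * v 3 := by
      unfold gval
      ring
    rw [h6]
    exact p.asIdeal.add_mem (p.asIdeal.add_mem (hm _ _ hy) (hm _ _ h2)) (hm _ _ h3)
  · intro h
    rw [LeoG.H87.gact_3] at h
    have h6 : w * (w * (w * v 3)) = gval v y w - ((v 0 * y + v 1 * w) * (y * y) +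
        (w ^ 2) * (v 2 * y)) := by
      unfold gval
      ring
    have h7 : w * (w * (w * v 3)) ∈ p.asIdeal ^ 2 := by
      rw [h6]
      exact (p.asIdeal ^ 2).sub_mem h ((p.asIdeal ^ 2).add_mem
        ((p.asIdeal ^ 2).mul_mem_left _ hyy) ((p.asIdeal ^ 2).mul_mem_left _ h2y))
    have h8 := (Ideal.IsPrime.mul_mem_pow p.asIdeal h7).resolve_left hw
    have h9 := (Ideal.IsPrime.mul_mem_pow p.asIdeal h8).resolve_left hw
    exact h4 ((Ideal.IsPrime.mul_mem_pow p.asIdeal h9).resolve_left hw)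

theorem T0_act_inv (p : HeightOneSpectrum (𝓞 k)) {v : Q4 (𝓞 k)} {x y z w : 𝓞 k}
    (hv : gact v x y z w ∈ T0 p)
    (hy : y ∈ p.asIdeal) (hx : x ∉ p.asIdeal) (hw : w ∉ p.asIdeal) : v ∈ T0 p := by
  have hp : p.asIdeal.IsPrime := p.isPrime
  have h1 := T0_act p hv (x := w) (y := -y) (z := -z) (w := x) (p.asIdeal.neg_mem hy) hw hx
  rw [LeoG.H87.gact_gact] at h1
  have h2 : x * w + y * -z = x * w - y * z := by ring
  have h3 : x * -y + y * x = 0 := by ring
  have h4 : z * w + w * -z = 0 := by ring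
  have h5 : z * -y + w * x = x * w - y * z := by ring
  rw [h2, h3, h4, h5] at h1
  obtain ⟨D, hD⟩ : ∃ D, D = x * w - y * z := ⟨_, rfl⟩
  rw [← hD] at h1
  have hDp : D ∉ p.asIdeal := by
    intro h
    have h6 : x * w ∈ p.asIdeal := by
      have h7 : x * w = D + z * y := by rw [hD]; ring
      rw [h7]
      exact p.asIdeal.add_mem h (p.asIdeal.mul_mem_left z hy)
    rcases hp.mem_or_mem h6 with h7 | h7
    · exact hx h7
    · exact hw h7
  obtain ⟨g1, g2, g3, g4⟩ := h1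
  rw [LeoG.H87.gact_1] at g1
  rw [LeoG.H87.gact_2] at g2
  rw [LeoG.H87.gact_3] at g3 g4
  have e1 : 3 * v 0 * D ^ 2 * 0 + v 1 * (D ^ 2 * D + 2 * D * 0 * 0) +
      v 2 * (2 * D * 0 * D + 0 * 0 ^ 2) + 3 * v 3 * 0 ^ 2 * D = D * (D * (D * v 1)) := by ring
  have e2 : 3 * v 0 * D * 0 ^ 2 + v 1 * (2 * D * 0 * D + 0 ^ 2 * 0) +
      v 2 * (D * D ^ 2 + 2 * 0 * 0 * D) + 3 * v 3 * 0 * D ^ 2 = D * (D * (D * v 2)) := by ring
  have e3 : gval v 0 D = D * (D * (D * v 3)) := by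
    unfold gval
    ring
  rw [e1] at g1
  rw [e2] at g2
  rw [e3] at g3 g4
  have hcan : ∀ (j : ℕ) (a : 𝓞 k), D * (D * (D * a)) ∈ p.asIdeal ^ j → a ∈ p.asIdeal ^ j := by
    intro j a h
    have h8 := (Ideal.IsPrime.mul_mem_pow p.asIdeal h).resolve_left hDp
    have h9 := (Ideal.IsPrime.mul_mem_pow p.asIdeal h8).resolve_left hDp
    exact (Ideal.IsPrime.mul_mem_pow p.asIdeal h9).resolve_left hDp
  refine ⟨?_, ?_, ?_, ?_⟩
  · intro h
    exact g1 (p.asIdeal.mul_mem_left _ (p.asIdeal.mul_mem_left _ (p.asIdeal.mul_mem_left _ h)))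
  · have := hcan 1 (v 2) (by rw [pow_one]; exact g2)
    rwa [pow_one] at this
  · have := hcan 1 (v 3) (by rw [pow_one]; exact g3)
    rwa [pow_one] at this
  · intro h
    exact g4 ((p.asIdeal ^ 2).mul_mem_left _ ((p.asIdeal ^ 2).mul_mem_left _
      ((p.asIdeal ^ 2).mul_mem_left _ h)))

/-- a form in `Dbl` is moved into `T0` by one of the `q + 1` special matrices -/
theorem Dbl_rep (p : HeightOneSpectrum (𝓞 k)) (r : 𝓞 k ⧸ p.asIdeal → 𝓞 k)
    (hr : ∀ b, Ideal.Quotient.mk p.asIdeal (r b) = b) {v : Q4 (𝓞 k)} (hv : v ∈ Dbl p) :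
    gact v 0 1 1 0 ∈ T0 p ∨ ∃ b, gact v 1 (r b) 0 1 ∈ T0 p := by
  obtain ⟨x, y, z, w, hdet, hT⟩ := hv
  have hp : p.asIdeal.IsPrime := p.isPrime
  have hmax : p.asIdeal.IsMaximal := hp.isMaximal p.ne_bot
  by_cases hw : w ∈ p.asIdeal
  · left
    have hyz : y * z ∉ p.asIdeal := by
      intro h
      exact hdet (p.asIdeal.sub_mem (p.asIdeal.mul_mem_left _ hw) h)
    have hy : y ∉ p.asIdeal := fun h => hyz (p.asIdeal.mul_mem_right _ h)
    have hz : z ∉ p.asIdeal := fun h => hyz (p.asIdeal.mul_mem_left _ h)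
    refine T0_act_inv p (x := z) (y := w) (z := x) (w := y) ?_ hw hz hy
    rw [LeoG.H87.gact_gact]
    have e1 : 0 * z + 1 * x = x := by ring
    have e2 : 0 * w + 1 * y = y := by ring
    have e3 : 1 * z + 0 * x = z := by ring
    have e4 : 1 * w + 0 * y = w := by ring
    rw [e1, e2, e3, e4]
    exact hT
  · right
    obtain ⟨s, i, hi, hs⟩ := hmax.exists_inv hw
    refine ⟨Ideal.Quotient.mk p.asIdeal (y * s), ?_⟩
    obtain ⟨t, ht⟩ : ∃ t, t = r (Ideal.Quotient.mk p.asIdeal (y * s)) := ⟨_, rfl⟩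
    have h1 : t - y * s ∈ p.asIdeal := by
      rw [← Ideal.Quotient.eq, ht]
      exact hr _
    rw [← ht]
    have h2 : y - t * w ∈ p.asIdeal := by
      have h3 : y - t * w = y * i - w * (t - y * s) := by
        have : y * (s * w + i) = y := by rw [hs, mul_one]
        linear_combination (-1 : 𝓞 k) * this
      rw [h3]
      exact p.asIdeal.sub_mem (p.asIdeal.mul_mem_left _ hi) (p.asIdeal.mul_mem_left _ h1)
    have h4 : x - t * z ∉ p.asIdeal := by
      intro h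
      apply hdet
      have h5 : x * w - y * z = w * (x - t * z) - z * (y - t * w) := by ring
      rw [h5]
      exact p.asIdeal.sub_mem (p.asIdeal.mul_mem_left _ h) (p.asIdeal.mul_mem_left _ h2)
    refine T0_act_inv p (x := x - t * z) (y := y - t * w) (z := z) (w := w) ?_ h2 h4 hw
    rw [LeoG.H87.gact_gact]
    have e1 : 1 * (x - t * z) + t * z = x := by ring
    have e2 : 1 * (y - t * w) + t * w = y := by ring
    have e3 : 0 * (x - t * z) + 1 * z = z := by ring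
    have e4 : 0 * (y - t * w) + 1 * w = w := by ring
    rw [e1, e2, e3, e4]
    exact hT

end loc

/-- DBC -/
theorem dbc : DbcStmt := by
  intro k _ _ p
  have hne : p.asIdeal ^ 2 ≠ ⊥ := pow_ne_zero 2 p.ne_bot
  have hfA : Finite (𝓞 k ⧸ p.asIdeal ^ 2) := Ideal.finiteQuotientOfFreeOfNeBot _ hne
  have hfB : Finite (𝓞 k ⧸ p.asIdeal) := Ideal.finiteQuotientOfFreeOfNeBot _ p.ne_bot
  have hftB : Fintype (𝓞 k ⧸ p.asIdeal) := Fintype.ofFinite _
  have hle : p.asIdeal ^ 2 ≤ p.asIdeal := Ideal.pow_le_self two_ne_zero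
  obtain ⟨q, hq⟩ : ∃ q, q = Ideal.absNorm p.asIdeal := ⟨_, rfl⟩
  have hq2 : 2 ≤ q := by
    rw [hq]
    exact LeoK.H65.two_le_norm p
  have hA : Nat.card (𝓞 k ⧸ p.asIdeal ^ 2) = q ^ 2 := by
    rw [hq, ← map_pow, Ideal.absNorm_apply, Submodule.cardQuot_apply]
  have hB : Nat.card (𝓞 k ⧸ p.asIdeal) = q := by
    rw [hq, Ideal.absNorm_apply, Submodule.cardQuot_apply]
  obtain ⟨f, hf⟩ : ∃ f, f = Ideal.Quotient.factor hle := ⟨_, rfl⟩
  have hfs : Function.Surjective f := by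
    rw [hf]
    exact Ideal.Quotient.factor_surjective hle
  have hfm : ∀ a : 𝓞 k, f (Ideal.Quotient.mk (p.asIdeal ^ 2) a) =
      Ideal.Quotient.mk p.asIdeal a := by
    intro a
    rw [hf]
    exact Ideal.Quotient.factor_mk hle a
  have hT : ∀ v : Q4 (𝓞 k), v ∈ T0 p → modQ (p.asIdeal ^ 2) v ∈ Cs f := by
    rintro v ⟨h1, h2, h3, h4⟩
    refine ⟨?_, ?_, ?_, ?_⟩
    · intro h
      change f (Ideal.Quotient.mk _ (v 1)) = 0 at h
      rw [hfm, Ideal.Quotient.eq_zero_iff_mem] at h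
      exact h1 h
    · change f (Ideal.Quotient.mk _ (v 2)) = 0
      rw [hfm, Ideal.Quotient.eq_zero_iff_mem]
      exact h2
    · change f (Ideal.Quotient.mk _ (v 3)) = 0
      rw [hfm, Ideal.Quotient.eq_zero_iff_mem]
      exact h3
    · intro h
      change Ideal.Quotient.mk _ (v 3) = 0 at h
      rw [Ideal.Quotient.eq_zero_iff_mem] at h
      exact h4 h
  obtain ⟨r, hr⟩ : ∃ r : 𝓞 k ⧸ p.asIdeal → 𝓞 k,
      ∀ b, Ideal.Quotient.mk p.asIdeal (r b) = b :=
    ⟨fun b => (Ideal.Quotient.mk_surjective b).choose,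
      fun b => (Ideal.Quotient.mk_surjective b).choose_spec⟩
  obtain ⟨m, hm⟩ : ∃ m : 𝓞 k →+* 𝓞 k ⧸ p.asIdeal ^ 2, m = Ideal.Quotient.mk (p.asIdeal ^ 2) :=
    ⟨_, rfl⟩
  have hmod : ∀ (v : Q4 (𝓞 k)) (x y z w : 𝓞 k), gact v x y z w ∈ T0 p →
      modQ (p.asIdeal ^ 2) v ∈ Ds f (m x) (m y) (m z) (m w) := by
    intro v x y z w h
    have h1 := hT _ h
    have h2 : modQ (p.asIdeal ^ 2) (gact v x y z w) =
        gact (modQ (p.asIdeal ^ 2) v) (m x) (m y) (m z) (m w) := by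
      funext i
      rw [hm]
      exact H90.gact_map _ v x y z w i
    rw [h2] at h1
    exact h1
  have hsub : modQ (p.asIdeal ^ 2) '' Dbl p ⊆
      (⋃ b, Ds f (m 1) (m (r b)) (m 0) (m 1)) ∪ Ds f (m 0) (m 1) (m 1) (m 0) := by
    rintro _ ⟨v, hv, rfl⟩
    rcases Dbl_rep p r hr hv with h | ⟨b, h⟩
    · exact Or.inr (hmod v _ _ _ _ h)
    · exact Or.inl (Set.mem_iUnion.2 ⟨b, hmod v _ _ _ _ h⟩)
  obtain ⟨c, hc⟩ : ∃ c, c = q ^ 2 * ((q ^ 2 - q) * (q * (q - 1))) := ⟨_, rfl⟩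
  have hC : (Cs f).ncard ≤ c := by
    rw [hc]
    exact card_Cs f hfs q hA hB
  have h1 : ∀ b, (Ds f (m 1) (m (r b)) (m 0) (m 1)).ncard ≤ c := by
    intro b
    refine (card_Ds f _ _ _ _ (m 1) (-m (r b)) (m 0) (m 1) ?_ ?_ ?_ ?_).trans hC
    · simp
    · simp
    · simp
    · simp
  have h2 : (Ds f (m 0) (m 1) (m 1) (m 0)).ncard ≤ c := by
    refine (card_Ds f _ _ _ _ (m 0) (m 1) (m 1) (m 0) ?_ ?_ ?_ ?_).trans hC
    · simp
    · simp
    · simp
    · simp
  have h3 : (modQ (p.asIdeal ^ 2) '' Dbl p).ncard ≤ (q + 1) * c := by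
    calc (modQ (p.asIdeal ^ 2) '' Dbl p).ncard
        ≤ ((⋃ b, Ds f (m 1) (m (r b)) (m 0) (m 1)) ∪ Ds f (m 0) (m 1) (m 1) (m 0)).ncard :=
          Set.ncard_le_ncard hsub (Set.toFinite _)
      _ ≤ (⋃ b, Ds f (m 1) (m (r b)) (m 0) (m 1)).ncard +
          (Ds f (m 0) (m 1) (m 1) (m 0)).ncard := Set.ncard_union_le _ _
      _ ≤ (∑ b, (Ds f (m 1) (m (r b)) (m 0) (m 1)).ncard) + c :=
          Nat.add_le_add (Set.ncard_iUnion_le_of_fintype _) h2
      _ ≤ (∑ _b : 𝓞 k ⧸ p.asIdeal, c) + c :=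
          Nat.add_le_add_right (Finset.sum_le_sum fun b _ => h1 b) _
      _ = (q + 1) * c := by
          rw [Finset.sum_const, Finset.card_univ, ← Nat.card_eq_fintype_card, hB, smul_eq_mul]
          ring
  have h4 : ((modQ (p.asIdeal ^ 2) '' Dbl p).ncard : ℝ) ≤ (((q + 1) * c : ℕ) : ℝ) := by
    exact_mod_cast h3
  refine h4.trans (le_of_eq ?_)
  have h5 : ((q ^ 2 - q : ℕ) : ℝ) = (q : ℝ) ^ 2 - q := by
    rw [Nat.cast_sub (by nlinarith), Nat.cast_pow]
  have h6 : ((q - 1 : ℕ) : ℝ) = (q : ℝ) - 1 := by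
    rw [Nat.cast_sub (by omega), Nat.cast_one]
  have h7 : np p = (q : ℝ) := by
    unfold np
    rw [hq]
  rw [h7, hc]
  push_cast [h5, h6]
  ring

end Pool.Agent.LeoD.H65
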