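import Mathlib
import Pool.Agent.LeoD.FieldStmts

/-!
# Squad LEOD, module DSK: the discriminant of `k(√D)`
-/

set_option autoImplicit false

open NumberField IsDedekindDomain Module

namespace Pool.Agent.LeoD.H65

theorem dsk (dif : DifStmt) : DskStmt := by
  intro k K _ _ _ _ _ I D s h2 hs hns hF
  have hFD : FiniteDimensional k K := FiniteDimensional.of_finrank_pos (by omega)
  have h3 : (algebraMap k K (D : k)) = algebraMap (𝓞 k) K D := by
    rw [IsScalarTower.algebraMap_apply (𝓞 k) k K]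
  have hsint : IsIntegral ℤ s := by
    have : IsIntegral ℤ (s ^ 2) := by
      rw [hs, h3]
      exact (RingOfIntegers.isIntegral D).algebraMap
    exact this.of_pow (by norm_num)
  obtain ⟨ρ, hρ⟩ : ∃ ρ : 𝓞 K, ρ = ⟨s, hsint⟩ := ⟨_, rfl⟩
  have hρ' : (ρ : K) = s := by
    rw [hρ]
    rfl
  have hρ2 : ρ ^ 2 = algebraMap (𝓞 k) (𝓞 K) D := by
    apply RingOfIntegers.coe_injective
    rw [map_pow]
    change (ρ : K) ^ 2 = _
    rw [hρ', hs, h3]
    rfl
  have hdif := dif k K I D ρ h2 hρ2 hns hF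
  -- the norm of `ρ`
  have hnorm : (Algebra.norm ℤ ρ).natAbs = (Algebra.norm ℤ D).natAbs := by
    have h7 : (Algebra.norm ℤ ρ) ^ 2 = (Algebra.norm ℤ D) ^ 2 := by
      have h8 : ((Algebra.norm ℤ (ρ ^ 2) : ℤ) : ℚ) = (Algebra.norm ℤ D : ℤ) ^ 2 := by
        rw [Algebra.coe_norm_int, Algebra.coe_norm_int]
        have h9 : ((ρ ^ 2 : 𝓞 K) : K) = algebraMap k K (D : k) := by
          rw [← hs, ← hρ']
          push_cast
          rfl
        rw [h9, ← Algebra.norm_norm (R := ℚ) (S := k), Algebra.norm_algebraMap, h2, map_pow]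
      rw [← map_pow]
      exact_mod_cast h8
    have h10 := congrArg Int.natAbs h7
    rw [Int.natAbs_pow, Int.natAbs_pow] at h10
    exact Nat.pow_left_injective two_ne_zero h10
  have hmain := natAbs_discr_eq_absNorm_differentIdeal_mul_natAbs_discr_pow k (𝓞 k) K (𝓞 K)
  rw [h2] at hmain
  have h5 := congrArg Ideal.absNorm hdif
  rw [map_mul, Ideal.absNorm_algebraMap, Ideal.absNorm_span_singleton, hnorm] at h5
  have h6 : finrank (𝓞 k) (𝓞 K) = 2 := by
    rw [← h2, IsFractionRing.finrank_eq (𝓞 k) k (𝓞 K) K]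
  rw [h6] at h5
  rw [hmain, ← h5]
  ring

end Pool.Agent.LeoD.H65
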