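import Mathlib
import Pool.Agent.LeoD.QuarStmts
import Pool.Agent.Helper65_LeoK.Pik

/-!
# Squad LEOD: module IDQ, the number of ideals of given norm in a quadratic field
-/

set_option autoImplicit false

open NumberField NumberField.InfinitePlace NumberField.mixedEmbedding IsDedekindDomain Module
  MeasureTheory Filter Topology
open Pool.Agent.Helper85_Leo Pool.Agent.LeoK Pool.Agent.LeoG Pool.Agent.LeoC

open scoped Classical

namespace Pool.Agent.LeoD.H65

variable {k : Type} [Field k] [NumberField k]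

/-- the ideals of norm `n` -/
def nset (k : Type) [Field k] [NumberField k] (n : ℕ) : Set (Ideal (𝓞 k)) :=
  {I : Ideal (𝓞 k) | Ideal.absNorm I = n}

theorem nset_fin (n : ℕ) : (nset k n).Finite := Ideal.finite_setOfPred_absNorm_eq n

theorem norm_nat (hk : finrank ℚ k = 2) (n : ℕ) :
    Ideal.absNorm (Ideal.span {(n : 𝓞 k)}) = n ^ 2 := by
  rw [LeoK.H65.absNorm_nat, hk]

theorem dvd_split {A B m n : ℕ} (hmn : Nat.Coprime m n) (h : A * B = m * n) (hA : A ∣ m ^ 2)
    (hB : B ∣ n ^ 2) (hm : 0 < m) (hn : 0 < n) : A = m ∧ B = n := by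
  have h1 : Nat.Coprime A n := Nat.Coprime.coprime_dvd_left hA (hmn.pow_left 2)
  have h2 : A ∣ m := h1.dvd_of_dvd_mul_right (h ▸ Nat.dvd_mul_right A B)
  have h3 : Nat.Coprime B m := Nat.Coprime.coprime_dvd_left hB (hmn.symm.pow_left 2)
  have h4 : B ∣ n := h3.dvd_of_dvd_mul_left (h ▸ Nat.dvd_mul_left B A)
  have h5 := Nat.le_of_dvd hm h2
  have h6 := Nat.le_of_dvd hn h4
  have hA0 : 0 < A := Nat.pos_of_dvd_of_pos h2 hm
  have hB0 : 0 < B := Nat.pos_of_dvd_of_pos h4 hn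
  constructor
  · by_contra hne
    have h7 : A < m := lt_of_le_of_ne h5 hne
    have h8 : A * B < m * n := Nat.mul_lt_mul_of_lt_of_le h7 h6 hn
    omega
  · by_contra hne
    have h7 : B < n := lt_of_le_of_ne h6 hne
    have h8 : A * B < m * n := Nat.mul_lt_mul_of_le_of_lt h5 h7 hm
    omega

theorem split_eq {m n : ℕ} (hmn : Nat.Coprime m n) (I : Ideal (𝓞 k))
    (hI : Ideal.absNorm I = m * n) :
    (I ⊔ Ideal.span {(m : 𝓞 k)}) * (I ⊔ Ideal.span {(n : 𝓞 k)}) = I := by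
  have htop : Ideal.span {(m : 𝓞 k)} ⊔ Ideal.span {(n : 𝓞 k)} = ⊤ := by
    rw [← Ideal.isCoprime_iff_sup_eq, Ideal.isCoprime_span_singleton_iff]
    exact hmn.cast
  apply le_antisymm
  · rw [Ideal.sup_mul, Ideal.mul_sup, Ideal.mul_sup]
    refine sup_le (sup_le Ideal.mul_le_left Ideal.mul_le_left) (sup_le Ideal.mul_le_right ?_)
    rw [Ideal.span_singleton_mul_span_singleton, Ideal.span_le, Set.singleton_subset_iff]
    have := Ideal.absNorm_mem I
    rw [hI, Nat.cast_mul] at this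
    exact this
  · calc I = I * ⊤ := (Ideal.mul_top I).symm
      _ = I * (Ideal.span {(m : 𝓞 k)} ⊔ Ideal.span {(n : 𝓞 k)}) := by rw [htop]
      _ = I * Ideal.span {(m : 𝓞 k)} ⊔ I * Ideal.span {(n : 𝓞 k)} := Ideal.mul_sup _ _ _
      _ ≤ _ := by
        refine sup_le ?_ (Ideal.mul_mono le_sup_left le_sup_right)
        rw [mul_comm]
        exact Ideal.mul_mono le_sup_right le_sup_left

theorem split_norm (hk : finrank ℚ k = 2) {m n : ℕ} (hmn : Nat.Coprime m n) (hm : 0 < m)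
    (hn : 0 < n) (I : Ideal (𝓞 k)) (hI : Ideal.absNorm I = m * n) :
    Ideal.absNorm (I ⊔ Ideal.span {(m : 𝓞 k)}) = m ∧
      Ideal.absNorm (I ⊔ Ideal.span {(n : 𝓞 k)}) = n := by
  refine dvd_split hmn ?_ ?_ ?_ hm hn
  · rw [← map_mul, split_eq hmn I hI, hI]
  · rw [← norm_nat hk m]
    exact Ideal.absNorm_dvd_absNorm_of_le le_sup_right
  · rw [← norm_nat hk n]
    exact Ideal.absNorm_dvd_absNorm_of_le le_sup_right

theorem nset_mul (hk : finrank ℚ k = 2) {m n : ℕ} (hmn : Nat.Coprime m n) (hm : 0 < m)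
    (hn : 0 < n) : (nset k (m * n)).ncard ≤ (nset k m).ncard * (nset k n).ncard := by
  rw [← Set.ncard_prod]
  refine Set.ncard_le_ncard_of_injOn
    (fun I : Ideal (𝓞 k) => (I ⊔ Ideal.span {(m : 𝓞 k)}, I ⊔ Ideal.span {(n : 𝓞 k)}))
    ?_ ?_ ((nset_fin m).prod (nset_fin n))
  · intro I hI
    exact split_norm hk hmn hm hn I hI
  · intro I hI J hJ h
    have h1 := split_eq hmn I hI
    have h2 := split_eq hmn J hJ
    simp only [Prod.mk.injEq] at h
    rw [h.1, h.2, h2] at h1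
    exact h1.symm

/-- every ideal whose norm is a power of `p`, but not 1, is divisible by a prime above `p` -/
theorem exists_prime_dvd {p : ℕ} {e : ℕ} (I : Ideal (𝓞 k))
    (hI : Ideal.absNorm I = p ^ (e + 1)) (hp : p.Prime) :
    ∃ M J : Ideal (𝓞 k), M.IsPrime ∧ (p : 𝓞 k) ∈ M ∧ I = M * J := by
  have h1 : I ≠ ⊤ := by
    intro h
    rw [h, Ideal.absNorm_top] at hI
    exact (Nat.one_lt_pow (Nat.succ_ne_zero e) hp.one_lt).ne hI
  obtain ⟨M, hM, hle⟩ := Ideal.exists_le_maximal I h1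
  obtain ⟨J, hJ⟩ := Ideal.dvd_iff_le.2 hle
  refine ⟨M, J, hM.isPrime, ?_, hJ⟩
  have h2 := hle (Ideal.absNorm_mem I)
  rw [hI, Nat.cast_pow] at h2
  exact hM.isPrime.mem_of_pow_mem _ h2

theorem form_two {p : ℕ} (hp : p.Prime) (P Q : Ideal (𝓞 k)) (hP : Ideal.absNorm P = p)
    (hQ : Ideal.absNorm Q = p)
    (hall : ∀ M : Ideal (𝓞 k), M.IsPrime → (p : 𝓞 k) ∈ M → M = P ∨ M = Q) (e : ℕ) :
    ∀ I : Ideal (𝓞 k), Ideal.absNorm I = p ^ e → ∃ a, a ≤ e ∧ I = P ^ a * Q ^ (e - a) := by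
  induction e with
  | zero =>
    intro I hI
    rw [pow_zero, Ideal.absNorm_eq_one_iff] at hI
    refine ⟨0, le_refl 0, ?_⟩
    rw [hI, pow_zero, Nat.sub_zero, pow_zero, one_mul, Ideal.one_eq_top]
  | succ e ih =>
    intro I hI
    obtain ⟨M, J, hM, hpM, hIJ⟩ := exists_prime_dvd I hI hp
    have hMn : Ideal.absNorm M = p := by
      rcases hall M hM hpM with h | h
      · rw [h, hP]
      · rw [h, hQ]
    have hJn : Ideal.absNorm J = p ^ e := by
      rw [hIJ, map_mul, hMn, pow_succ, mul_comm (p ^ e)] at hI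
      exact Nat.eq_of_mul_eq_mul_left hp.pos hI
    obtain ⟨a, ha, hJ⟩ := ih J hJn
    rcases hall M hM hpM with h | h
    · refine ⟨a + 1, by omega, ?_⟩
      rw [hIJ, h, hJ, Nat.add_sub_add_right, pow_succ]
      ring
    · refine ⟨a, by omega, ?_⟩
      rw [hIJ, h, hJ, show e + 1 - a = (e - a) + 1 by omega, pow_succ]
      ring

theorem form_one {p : ℕ} (hp : p.Prime) (P : Ideal (𝓞 k)) (hP : Ideal.absNorm P = p ^ 2)
    (hall : ∀ M : Ideal (𝓞 k), M.IsPrime → (p : 𝓞 k) ∈ M → M = P) (e : ℕ) :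
    ∀ I : Ideal (𝓞 k), Ideal.absNorm I = p ^ e → ∃ a, 2 * a = e ∧ I = P ^ a := by
  induction e using Nat.strong_induction_on with
  | _ e ih =>
    intro I hI
    rcases Nat.eq_zero_or_pos e with h0 | h0
    · subst h0
      rw [pow_zero, Ideal.absNorm_eq_one_iff] at hI
      exact ⟨0, rfl, by rw [hI, pow_zero, Ideal.one_eq_top]⟩
    · obtain ⟨e, rfl⟩ : ∃ e', e = e' + 1 := ⟨e - 1, by omega⟩
      obtain ⟨M, J, hM, hpM, hIJ⟩ := exists_prime_dvd I hI hp
      have hMP := hall M hM hpM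
      rw [hIJ, hMP, map_mul, hP] at hI
      have h1 : 2 ≤ e + 1 := by
        have h2 : p ^ 2 ∣ p ^ (e + 1) := hI ▸ Nat.dvd_mul_right _ _
        exact (Nat.pow_dvd_pow_iff_le_right hp.one_lt).1 h2
      have hJn : Ideal.absNorm J = p ^ (e - 1) := by
        have h3 : p ^ (e + 1) = p ^ 2 * p ^ (e - 1) := by
          rw [← pow_add]
          congr 1
          omega
        rw [h3] at hI
        exact Nat.eq_of_mul_eq_mul_left (pow_pos hp.pos 2) hI
      obtain ⟨a, ha, hJ⟩ := ih (e - 1) (by omega) J hJn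
      refine ⟨a + 1, by omega, ?_⟩
      rw [hIJ, hMP, hJ, pow_succ, mul_comm]

/-- the decomposition of `p` -/
theorem decomp (hk : finrank ℚ k = 2) {p : ℕ} (hp : p.Prime) :
    (∃ P : Ideal (𝓞 k), Ideal.absNorm P = p ^ 2 ∧
      ∀ M : Ideal (𝓞 k), M.IsPrime → (p : 𝓞 k) ∈ M → M = P) ∨
    ∃ P Q : Ideal (𝓞 k), Ideal.absNorm P = p ∧ Ideal.absNorm Q = p ∧
      P * Q = Ideal.span {(p : 𝓞 k)} ∧
      ∀ M : Ideal (𝓞 k), M.IsPrime → (p : 𝓞 k) ∈ M → M = P ∨ M = Q := by
  have hn := norm_nat hk p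
  obtain ⟨M, J, hM, hpM, hJ⟩ := exists_prime_dvd (e := 1) (Ideal.span {(p : 𝓞 k)}) hn hp
  have hpr : ∀ P : Ideal (𝓞 k), P.IsPrime → P ≠ ⊥ → ∀ N : Ideal (𝓞 k), N.IsPrime → P ≤ N →
      N = P := by
    intro P hP hP0 N hN hle
    have hmax : P.IsMaximal := hP.isMaximal hP0
    exact (hmax.eq_of_le hN.ne_top hle).symm
  have hM0 : M ≠ ⊥ := by
    intro h
    rw [h, Ideal.mem_bot, Nat.cast_eq_zero] at hpM
    exact hp.ne_zero hpM
  have h1 : Ideal.absNorm M * Ideal.absNorm J = p ^ 2 := by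
    rw [← map_mul, ← hJ, hn]
  have h2 : Ideal.absNorm M ∣ p ^ 2 := h1 ▸ Nat.dvd_mul_right _ _
  obtain ⟨j, hj, hMj⟩ := (Nat.dvd_prime_pow hp).1 h2
  have hle : ∀ N : Ideal (𝓞 k), (p : 𝓞 k) ∈ N → M * J ≤ N := by
    intro N hN
    rw [← hJ, Ideal.span_le, Set.singleton_subset_iff]
    exact hN
  interval_cases j
  · rw [pow_zero, Ideal.absNorm_eq_one_iff] at hMj
    exact absurd hMj hM.ne_top
  · right
    rw [pow_one] at hMj
    have hJn : Ideal.absNorm J = p := by
      rw [hMj, pow_two] at h1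
      exact Nat.eq_of_mul_eq_mul_left hp.pos h1
    have hJp : J.IsPrime := Ideal.isPrime_of_irreducible_absNorm (by
      rw [hJn]
      exact hp)
    have hJ0 : J ≠ ⊥ := by
      intro h
      rw [h, Ideal.absNorm_bot] at hJn
      exact hp.ne_zero hJn.symm
    refine ⟨M, J, hMj, hJn, hJ.symm, ?_⟩
    intro N hN hpN
    rcases (Ideal.IsPrime.mul_le hN).1 (hle N hpN) with h | h
    · exact Or.inl (hpr M hM hM0 N hN h)
    · exact Or.inr (hpr J hJp hJ0 N hN h)
  · left
    have hJt : J = ⊤ := by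
      rw [hMj] at h1
      have h3 : p ^ 2 * Ideal.absNorm J = p ^ 2 * 1 := by rw [h1, mul_one]
      exact Ideal.absNorm_eq_one_iff.1 (Nat.eq_of_mul_eq_mul_left (pow_pos hp.pos 2) h3)
    refine ⟨M, hMj, ?_⟩
    intro N hN hpN
    have h4 := hle N hpN
    rw [hJt, Ideal.mul_top] at h4
    exact hpr M hM hM0 N hN h4

theorem ncard_one {p : ℕ} (hp : p.Prime) (P : Ideal (𝓞 k)) (hP : Ideal.absNorm P = p ^ 2)
    (hall : ∀ M : Ideal (𝓞 k), M.IsPrime → (p : 𝓞 k) ∈ M → M = P) (e : ℕ) :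
    (nset k (p ^ e)).ncard ≤ 1 ∧ (Odd e → (nset k (p ^ e)).ncard = 0) := by
  have h := form_one hp P hP hall e
  constructor
  · have h1 : nset k (p ^ e) ⊆ {P ^ (e / 2)} := by
      intro I hI
      obtain ⟨a, ha, hI⟩ := h I hI
      rw [Set.mem_singleton_iff, hI]
      congr 1
      omega
    refine (Set.ncard_le_ncard h1 (Set.finite_singleton _)).trans ?_
    rw [Set.ncard_singleton]
  · intro ho
    rw [Set.ncard_eq_zero (nset_fin _)]
    ext I
    refine ⟨fun hI => ?_, fun hI => absurd hI (Set.notMem_empty _)⟩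
    obtain ⟨a, ha, _⟩ := h I hI
    obtain ⟨b, hb⟩ := ho
    omega

theorem ncard_two {p : ℕ} (hp : p.Prime) (P Q : Ideal (𝓞 k)) (hP : Ideal.absNorm P = p)
    (hQ : Ideal.absNorm Q = p)
    (hall : ∀ M : Ideal (𝓞 k), M.IsPrime → (p : 𝓞 k) ∈ M → M = P ∨ M = Q) (e : ℕ) :
    (nset k (p ^ e)).ncard ≤ e + 1 ∧ (P = Q → (nset k (p ^ e)).ncard ≤ 1) := by
  have h := form_two hp P Q hP hQ hall e
  constructor
  · have h1 : nset k (p ^ e) ⊆
        ((Finset.range (e + 1)).image fun a => P ^ a * Q ^ (e - a) : Finset (Ideal (𝓞 k))) := by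
      intro I hI
      obtain ⟨a, ha, hI⟩ := h I hI
      rw [Finset.mem_coe, Finset.mem_image]
      exact ⟨a, Finset.mem_range.2 (by omega), hI.symm⟩
    refine (Set.ncard_le_ncard h1 (Finset.finite_toSet _)).trans ?_
    rw [Set.ncard_coe_finset]
    refine Finset.card_image_le.trans ?_
    rw [Finset.card_range]
  · intro hPQ
    have h1 : nset k (p ^ e) ⊆ {P ^ e} := by
      intro I hI
      obtain ⟨a, ha, hI⟩ := h I hI
      rw [Set.mem_singleton_iff, hI, ← hPQ, ← pow_add]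
      congr 1
      omega
    refine (Set.ncard_le_ncard h1 (Set.finite_singleton _)).trans ?_
    rw [Set.ncard_singleton]

theorem ncard_pp (hk : finrank ℚ k = 2) {p : ℕ} (hp : p.Prime) (e : ℕ) :
    (nset k (p ^ e)).ncard ≤ e + 1 := by
  rcases decomp hk hp with ⟨P, hP, hall⟩ | ⟨P, Q, hP, hQ, -, hall⟩
  · exact (ncard_one hp P hP hall e).1.trans (by omega)
  · exact (ncard_two hp P Q hP hQ hall e).1

theorem nset_one : (nset k 1).ncard ≤ 1 := by
  have h1 : nset k 1 ⊆ {⊤} := by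
    intro I hI
    exact Ideal.absNorm_eq_one_iff.1 hI
  refine (Set.ncard_le_ncard h1 (Set.finite_singleton _)).trans ?_
  rw [Set.ncard_singleton]

theorem ncard_divisors (hk : finrank ℚ k = 2) (n : ℕ) :
    0 < n → (nset k n).ncard ≤ n.divisors.card := by
  induction n using Nat.recOnPosPrimePosCoprime with
  | prime_pow p e hp he =>
    intro _
    rw [Nat.divisors_prime_pow hp, Finset.card_map, Finset.card_range]
    exact ncard_pp hk hp e
  | zero => intro h; exact absurd h (lt_irrefl 0)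
  | one =>
    intro _
    rw [Nat.divisors_one, Finset.card_singleton]
    exact nset_one
  | coprime a b ha hb hab iha ihb =>
    intro _
    rw [hab.card_divisors_mul]
    exact (nset_mul hk hab (by omega) (by omega)).trans
      (Nat.mul_le_mul (iha (by omega)) (ihb (by omega)))

/-! ## The Jacobi symbol -/

/-- a prime of norm `p` gives a square root of `d` modulo `p` -/
theorem isSquare_of_norm (d : ℕ) (s : 𝓞 k) (hs : s ^ 2 = (d : 𝓞 k)) {p : ℕ} (hp : p.Prime)
    (P : Ideal (𝓞 k)) (hP : Ideal.absNorm P = p) : IsSquare ((d : ℤ) : ZMod p) := by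
  have hfin : Finite (𝓞 k ⧸ P) := by
    rw [← Ideal.absNorm_ne_zero_iff, hP]
    exact hp.ne_zero
  have hft : Fintype (𝓞 k ⧸ P) := Fintype.ofFinite _
  have hcard : Fintype.card (𝓞 k ⧸ P) = p := by
    rw [← Nat.card_eq_fintype_card, ← hP, Ideal.absNorm_apply, Submodule.cardQuot_apply]
  obtain ⟨e⟩ : Nonempty (ZMod p ≃+* (𝓞 k ⧸ P)) := ⟨ZMod.ringEquivOfPrime _ hp hcard⟩
  refine ⟨e.symm (Ideal.Quotient.mk P s), ?_⟩
  rw [← map_mul, ← map_mul, ← pow_two, hs, map_natCast, map_natCast, Int.cast_natCast]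

theorem sq_dvd_of (hk : finrank ℚ k = 2) (d : ℕ) (s : 𝓞 k) (hs : s ^ 2 = (d : 𝓞 k)) {p : ℕ}
    (h : s ∈ Ideal.span {(p : 𝓞 k)}) : p ^ 2 ∣ d := by
  obtain ⟨t, ht⟩ := Ideal.mem_span_singleton.1 h
  have h1 : Ideal.span {(p : 𝓞 k)} ^ 2 ∣ Ideal.span {(d : 𝓞 k)} := by
    rw [Ideal.span_singleton_pow, Ideal.dvd_span_singleton, Ideal.mem_span_singleton, ← hs, ht]
    exact ⟨t ^ 2, by ring⟩
  have h2 := map_dvd Ideal.absNorm h1
  rw [map_pow, norm_nat hk, norm_nat hk] at h2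
  exact (Nat.pow_dvd_pow_iff two_ne_zero).1 h2

theorem pp_jac (hk : finrank ℚ k = 2) (d : ℕ) (hd : Squarefree d) (s : 𝓞 k)
    (hs : s ^ 2 = (d : 𝓞 k)) {p : ℕ} (hp : p.Prime) (e : ℕ) :
    ((nset k (p ^ e)).ncard : ℤ) ≤ ∑ i ∈ Finset.range (e + 1), jacobiSym d p ^ i := by
  have : Fact p.Prime := ⟨hp⟩
  have hle : jacobiSym d p = legendreSym p d := (jacobiSym.legendreSym.to_jacobiSym p d).symm
  have htri : jacobiSym d p = 0 ∨ jacobiSym d p = 1 ∨ jacobiSym d p = -1 :=
    jacobiSym.trichotomy _ _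
  rcases htri with h0 | h1 | h2
  · rw [h0]
    have hsum : ∑ i ∈ Finset.range (e + 1), (0 : ℤ) ^ i = 1 := by
      rw [Finset.sum_range_succ']
      simp
    rw [hsum]
    have hpd : p ∣ d := by
      rw [hle, legendreSym.eq_zero_iff] at h0
      rw [Int.cast_natCast, ZMod.natCast_eq_zero_iff] at h0
      exact h0
    rcases decomp hk hp with ⟨P, hP, hall⟩ | ⟨P, Q, hP, hQ, hPQ, hall⟩
    · exact_mod_cast (ncard_one hp P hP hall e).1
    · by_cases hne : P = Q
      · exact_mod_cast (ncard_two hp P Q hP hQ hall e).2 hne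
      · exfalso
        have hPp : P.IsPrime := Ideal.isPrime_of_irreducible_absNorm (by rw [hP]; exact hp)
        have hQp : Q.IsPrime := Ideal.isPrime_of_irreducible_absNorm (by rw [hQ]; exact hp)
        have hP0 : P ≠ ⊥ := by
          intro h
          rw [h, Ideal.absNorm_bot] at hP
          exact hp.ne_zero hP.symm
        have hQ0 : Q ≠ ⊥ := by
          intro h
          rw [h, Ideal.absNorm_bot] at hQ
          exact hp.ne_zero hQ.symm
        have : P.IsMaximal := hPp.isMaximal hP0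
        have : Q.IsMaximal := hQp.isMaximal hQ0
        have hcop := Ideal.isCoprime_of_isMaximal hne
        have hsub : ∀ N : Ideal (𝓞 k), N.IsPrime → Ideal.span {(p : 𝓞 k)} ≤ N → s ∈ N := by
          intro N hN hpN
          refine hN.mem_of_pow_mem 2 ?_
          rw [hs]
          apply hpN
          obtain ⟨c, hc⟩ := hpd
          rw [Ideal.mem_span_singleton]
          exact ⟨(c : 𝓞 k), by rw [hc, Nat.cast_mul]⟩
        have hsP : s ∈ P := hsub P hPp (hPQ ▸ Ideal.mul_le_left)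
        have hsQ : s ∈ Q := hsub Q hQp (hPQ ▸ Ideal.mul_le_right)
        have hsp : s ∈ Ideal.span {(p : 𝓞 k)} := by
          rw [← hPQ, Ideal.mul_eq_inf_of_isCoprime hcop]
          exact ⟨hsP, hsQ⟩
        have h3 := sq_dvd_of hk d s hs hsp
        rw [pow_two] at h3
        exact hp.one_lt.ne' (Nat.isUnit_iff.1 (hd p h3))
  · rw [h1]
    have hsum : ∑ i ∈ Finset.range (e + 1), (1 : ℤ) ^ i = e + 1 := by simp
    rw [hsum]
    exact_mod_cast ncard_pp hk hp e
  · rcases decomp hk hp with ⟨P, hP, hall⟩ | ⟨P, Q, hP, hQ, hPQ, hall⟩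
    · obtain ⟨h3, h4⟩ := ncard_one hp P hP hall e
      rw [h2]
      rcases Nat.even_or_odd e with he | he
      · have hsum : ∑ i ∈ Finset.range (e + 1), (-1 : ℤ) ^ i = 1 := by
          rw [neg_one_geom_sum, if_neg]
          rw [Nat.not_even_iff_odd]
          exact he.add_one
        rw [hsum]
        exact_mod_cast h3
      · have hsum : ∑ i ∈ Finset.range (e + 1), (-1 : ℤ) ^ i = 0 := by
          rw [neg_one_geom_sum, if_pos]
          exact he.add_one
        rw [hsum, h4 he]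
        rfl
    · exfalso
      rw [hle, legendreSym.eq_neg_one_iff] at h2
      exact h2 (isSquare_of_norm d s hs hp P hP)

/-- the Jacobi symbol as an arithmetic function -/
noncomputable def jf (d : ℕ) : ArithmeticFunction ℤ :=
  ⟨fun n => if n = 0 then 0 else jacobiSym d n, if_pos rfl⟩

theorem jf_apply (d : ℕ) {n : ℕ} (hn : n ≠ 0) : jf d n = jacobiSym d n := if_neg hn

theorem jf_mult (d : ℕ) : (jf d).IsMultiplicative := by
  rw [ArithmeticFunction.IsMultiplicative.iff_ne_zero]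
  refine ⟨?_, ?_⟩
  · rw [jf_apply d one_ne_zero, jacobiSym.one_right]
  · intro m n hm hn _
    have : NeZero m := ⟨hm⟩
    have : NeZero n := ⟨hn⟩
    rw [jf_apply d (Nat.mul_ne_zero hm hn), jf_apply d hm, jf_apply d hn, jacobiSym.mul_right]

theorem sum_jac (d n : ℕ) : ∑ c ∈ n.divisors, jacobiSym d c =
    ((ArithmeticFunction.zeta : ArithmeticFunction ℤ) * jf d) n := by
  rw [ArithmeticFunction.coe_zeta_mul_apply]
  refine Finset.sum_congr rfl fun c hc => ?_
  rw [jf_apply d (Nat.pos_of_mem_divisors hc).ne']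

theorem jac_mult (d : ℕ) {a b : ℕ} (hab : a.Coprime b) :
    ∑ c ∈ (a * b).divisors, jacobiSym d c =
      (∑ c ∈ a.divisors, jacobiSym d c) * ∑ c ∈ b.divisors, jacobiSym d c := by
  rw [sum_jac, sum_jac, sum_jac]
  exact (ArithmeticFunction.isMultiplicative_zeta.natCast.mul (jf_mult d)).map_mul_of_coprime hab

theorem ncard_jac (hk : finrank ℚ k = 2) (d : ℕ) (hd : Squarefree d) (s : 𝓞 k)
    (hs : s ^ 2 = (d : 𝓞 k)) (n : ℕ) :
    Odd n → ((nset k n).ncard : ℤ) ≤ ∑ a ∈ n.divisors, jacobiSym d a := by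
  induction n using Nat.recOnPosPrimePosCoprime with
  | prime_pow p e hp he =>
    intro _
    rw [Nat.sum_divisors_prime_pow hp]
    simp only [jacobiSym.pow_right]
    exact pp_jac hk d hd s hs hp e
  | zero => intro h; exact absurd h (by decide)
  | one =>
    intro _
    rw [Nat.divisors_one, Finset.sum_singleton, jacobiSym.one_right]
    exact_mod_cast nset_one
  | coprime a b ha hb hab iha ihb =>
    intro ho
    obtain ⟨h1, h2⟩ := Nat.odd_mul.1 ho
    rw [jac_mult d hab]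
    have h3 := nset_mul hk hab (by omega) (by omega)
    calc ((nset k (a * b)).ncard : ℤ) ≤ (nset k a).ncard * (nset k b).ncard := by
          exact_mod_cast h3
      _ ≤ _ := mul_le_mul (iha h1) (ihb h2) (Int.natCast_nonneg _)
          ((Int.natCast_nonneg _).trans (iha h1))

/-- IDQ -/
theorem idq : IdqStmt := by
  intro k _ _ d s hk hd _ hs
  refine ⟨fun n hn => ncard_divisors hk n hn, ?_, fun n hn => ncard_jac hk d hd s hs n hn⟩
  intro e n hn
  have h1 : Nat.Coprime (2 ^ e) n := Nat.Coprime.pow_left e (Nat.coprime_two_left.2 hn)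
  have h2 := nset_mul hk h1 (by positivity) hn.pos
  exact h2.trans (Nat.mul_le_mul_right _ (ncard_pp hk Nat.prime_two e))

end Pool.Agent.LeoD.H65
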