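import Mathlib
import Pool.Agent.LeoD.CountStmts
import Pool.Agent.Helper65_LeoK.Pik

/-!
# Squad LEOD: module PIE
-/

set_option autoImplicit false

open NumberField NumberField.InfinitePlace NumberField.mixedEmbedding IsDedekindDomain Module
  MeasureTheory Filter Topology
open Pool.Agent.Helper85_Leo Pool.Agent.LeoK Pool.Agent.LeoG Pool.Agent.LeoC

open scoped Classical

namespace Pool.Agent.LeoD.H65

variable {k : Type} [Field k] [NumberField k]

theorem three_finite : {p : HeightOneSpectrum (𝓞 k) | (3 : 𝓞 k) ∈ p.asIdeal}.Finite := by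
  have h6 : Ideal.span {(3 : 𝓞 k)} ≠ 0 := by
    rw [Ne, Ideal.zero_eq_bot, Ideal.span_singleton_eq_bot]
    norm_num
  refine (Ideal.finite_factors h6).subset ?_
  intro p hp
  exact (Ideal.dvd_span_singleton).2 hp

theorem dE_bound (E : Set (HeightOneSpectrum (𝓞 k))) (p : HeightOneSpectrum (𝓞 k)) :
    0 < dE E p ∧ dE E p ≤ 1 := by
  have h2 := LeoK.H65.np_two p
  have h3 : 1 / np p ≤ 1 / 2 := one_div_le_one_div_of_le (by norm_num) h2
  have h4 : 0 ≤ 1 / np p := by positivity
  obtain ⟨h5, h6⟩ := LeoK.H65.ap_bound p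
  have h0 : 0 < np p := by linarith
  unfold dE
  split_ifs
  · refine ⟨div_pos (by linarith) h0, ?_⟩
    rw [div_le_one h0]
    linarith
  · exact ⟨by linarith, by linarith⟩
  · exact ⟨by linarith, by linarith⟩

/-- PIE -/
theorem pie : PieStmt := by
  intro k _ _ E
  obtain ⟨c, hc⟩ : ∃ c, c = Real.exp (-(2 * ∑' p : HeightOneSpectrum (𝓞 k), 1 / np p ^ 2)) :=
    ⟨_, rfl⟩
  have hc0 : 0 < c := by rw [hc]; exact Real.exp_pos _
  have hfin := three_finite (k := k)
  have hd0 : 0 < ∏ p ∈ hfin.toFinset, dE E p := Finset.prod_pos fun p _ => (dE_bound E p).1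
  have hD := LeoK.H65.inf_prod (fun p : HeightOneSpectrum (𝓞 k) => dE E p)
    (fun p => (dE_bound E p).1.le)
    (fun p => (dE_bound E p).2) (c := c * ∏ p ∈ hfin.toFinset, dE E p) (mul_pos hc0 hd0) (by
      intro Q
      have h1 : ∀ p ∈ Q, (1 - 1 / np p ^ 2) * (if (3 : 𝓞 k) ∈ p.asIdeal then dE E p else 1) ≤
          dE E p := by
        intro p _
        obtain ⟨h2, h3⟩ := LeoK.H65.ap_bound p
        have h4 := (dE_bound E p).1
        split_ifs with h
        · nlinarith
        · unfold dE
          rw [if_neg h, mul_one]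
      calc c * ∏ p ∈ hfin.toFinset, dE E p
          ≤ (∏ p ∈ Q, (1 - 1 / np p ^ 2)) *
            ∏ p ∈ Q, (if (3 : 𝓞 k) ∈ p.asIdeal then dE E p else 1) := by
            refine mul_le_mul ?_ ?_ hd0.le ?_
            · rw [hc]
              exact LeoK.H65.prod_ge Q
            · rw [Finset.prod_ite, Finset.prod_const_one, mul_one]
              have hs : Q.filter (fun p => (3 : 𝓞 k) ∈ p.asIdeal) ⊆ hfin.toFinset := by
                intro p hp
                rw [Set.Finite.mem_toFinset]
                exact (Finset.mem_filter.1 hp).2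
              rw [← Finset.prod_sdiff hs]
              calc (∏ p ∈ hfin.toFinset \ Q.filter (fun p => (3 : 𝓞 k) ∈ p.asIdeal), dE E p) *
                    ∏ p ∈ Q.filter (fun p => (3 : 𝓞 k) ∈ p.asIdeal), dE E p
                  ≤ 1 * ∏ p ∈ Q.filter (fun p => (3 : 𝓞 k) ∈ p.asIdeal), dE E p :=
                    mul_le_mul_of_nonneg_right
                      (Finset.prod_le_one (fun p _ => (dE_bound E p).1.le)
                        fun p _ => (dE_bound E p).2)
                      (Finset.prod_nonneg fun p _ => (dE_bound E p).1.le)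
                _ = _ := one_mul _
            · exact Finset.prod_nonneg fun p _ => by linarith [(LeoK.H65.ap_bound p).2]
        _ = ∏ p ∈ Q, (1 - 1 / np p ^ 2) * (if (3 : 𝓞 k) ∈ p.asIdeal then dE E p else 1) := by
            rw [Finset.prod_mul_distrib]
        _ ≤ ∏ p ∈ Q, dE E p := by
            refine Finset.prod_le_prod ?_ h1
            intro p _
            have h2 := (LeoK.H65.ap_bound p).2
            refine mul_nonneg (by linarith) ?_
            split_ifs
            · exact (dE_bound E p).1.le
            · norm_num)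
  exact ⟨hD.1, fun p => dE_bound E p, hD.2.1, hD.2.2⟩

end Pool.Agent.LeoD.H65
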